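import Pool.Agent.H974R2.Circ
import Pool.Agent.H974R2.Infinite
import Pool.Agent.H12R2.Sep.Defs

/-!
# Two neighbours which are joined, but not inside a box: finite boxes
-/

set_option autoImplicit false

namespace Pool.Agent.H497_Nb

open H974 H12S Finset

/-- the box of radius `n` -/
noncomputable abbrev B (n : ℕ) : Finset Edg := RE (-(n:ℤ)) n (-(n:ℤ)) n

/-- the edges of the box of radius `R` outside of the box of radius `n` -/
noncomputable def O (n R : ℕ) : Finset Edg := B R \ B n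

/-- both ends of the edge reach the boundary of the large box, and are not joined in the small one -/
def Y (n R : ℕ) (F : Set Edg) : Prop :=
  (∃ w ∈ bdR (-(R:ℤ)) R (-(R:ℤ)) R, Reach ((F ∩ ↑(B R)) \ {e0 true}) (0, 0) w) ∧
    (∃ w ∈ bdR (-(R:ℤ)) R (-(R:ℤ)) R, Reach ((F ∩ ↑(B R)) \ {e0 true}) (1, 0) w) ∧
    ¬ Reach ((F ∩ ↑(B n)) \ {e0 true}) (0, 0) (1, 0)

/-- the ends are joined in the large box, not in the small one -/
def X (n R : ℕ) (F : Set Edg) : Prop :=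
  Reach ((F ∩ ↑(B R)) \ {e0 true}) (0, 0) (1, 0) ∧
    ¬ Reach ((F ∩ ↑(B n)) \ {e0 true}) (0, 0) (1, 0)

theorem B_sub {n R : ℕ} (h : n ≤ R) : B n ⊆ B R := by
  apply RE_subset <;> omega

theorem src_e0 : src (e0 true) = (0, 0) := rfl
theorem tgt_e0 : tgt (e0 true) = (1, 0) := by
  unfold e0
  rw [tgt_true]
  norm_num

theorem A4_Y {n R : ℕ} (h : n ≤ R) {F : Set Edg} (hF : A4 (-R) R (-R) R (e0 true) F) :
    Y n R F := by
  unfold A4 at hF
  rw [src_e0, tgt_e0] at hF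
  refine ⟨hF.1, hF.2.1, fun hc => hF.2.2 (hc.mono ?_)⟩
  rintro e ⟨⟨h1, h2⟩, h3⟩
  exact ⟨⟨h1, by exact_mod_cast B_sub h (by exact_mod_cast h2)⟩, h3⟩

theorem e0_mem {n : ℕ} (h : 1 ≤ n) : e0 true ∈ B n := by
  unfold e0 B
  rw [mem_RE_true]
  omega

theorem LRE_sub_O {n R : ℕ} (_h : n < R) : LRE (-(R:ℤ)) R ((n + 1 : ℕ) : ℤ) R ⊆ O n R := by
  rintro ⟨x, y, _ | _⟩ he
  · rw [mem_LRE_false] at he
    unfold O
    rw [Finset.mem_sdiff, mem_RE_false, mem_RE_false]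
    push_cast at he
    omega
  · rw [mem_LRE_true] at he
    unfold O
    rw [Finset.mem_sdiff, mem_RE_true, mem_RE_true]
    push_cast at he
    omega

theorem LRE_sub_O' {n R : ℕ} (_h : n < R) :
    LRE (-(R:ℤ)) R (-(R:ℤ)) (-((n + 1 : ℕ) : ℤ)) ⊆ O n R := by
  rintro ⟨x, y, _ | _⟩ he
  · rw [mem_LRE_false] at he
    unfold O
    rw [Finset.mem_sdiff, mem_RE_false, mem_RE_false]
    push_cast at he
    omega
  · rw [mem_LRE_true] at he
    unfold O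
    rw [Finset.mem_sdiff, mem_RE_true, mem_RE_true]
    push_cast at he
    omega

theorem TBE_sub_O {n R : ℕ} (_h : n < R) : TBE ((n + 1 : ℕ) : ℤ) R (-(R:ℤ)) R ⊆ O n R := by
  rintro ⟨x, y, _ | _⟩ he
  · rw [mem_TBE_false] at he
    unfold O
    rw [Finset.mem_sdiff, mem_RE_false, mem_RE_false]
    push_cast at he
    omega
  · rw [mem_TBE_true] at he
    unfold O
    rw [Finset.mem_sdiff, mem_RE_true, mem_RE_true]
    push_cast at he
    omega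

theorem TBE_sub_O' {n R : ℕ} (_h : n < R) :
    TBE (-(R:ℤ)) (-((n + 1 : ℕ) : ℤ)) (-(R:ℤ)) R ⊆ O n R := by
  rintro ⟨x, y, _ | _⟩ he
  · rw [mem_TBE_false] at he
    unfold O
    rw [Finset.mem_sdiff, mem_RE_false, mem_RE_false]
    push_cast at he
    omega
  · rw [mem_TBE_true] at he
    unfold O
    rw [Finset.mem_sdiff, mem_RE_true, mem_RE_true]
    push_cast at he
    omega

theorem inter_of_sub {F U V : Finset Edg} (h : V ⊆ U) :
    ((↑(F ∩ U) : Set Edg) ∩ ↑V) = ↑F ∩ ↑V := by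
  ext e
  simp only [Finset.coe_inter, Set.mem_inter_iff, Finset.mem_coe]
  constructor
  · rintro ⟨⟨h1, -⟩, h2⟩; exact ⟨h1, h2⟩
  · rintro ⟨h1, h2⟩; exact ⟨⟨h1, h h2⟩, h2⟩

theorem Circ_loc {n R : ℕ} (h : n < R) (F : Finset Edg) :
    Circ ((n + 1 : ℕ) : ℤ) R F ↔ Circ ((n + 1 : ℕ) : ℤ) R (F ∩ O n R) := by
  unfold Circ LRc TBc
  rw [inter_of_sub (LRE_sub_O h), inter_of_sub (LRE_sub_O' h), inter_of_sub (TBE_sub_O h),
    inter_of_sub (TBE_sub_O' h)]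

/-- four arms in the large box and a circuit around the small one -/
theorem pr_YC {n : ℕ} (hn : 1 ≤ n) :
    PQ (1/2) (B (3 * (n + 1))) (fun F => Y n (3 * (n + 1)) ↑F) * (1/2 : ℝ)^188 ≤
      PQ (1/2) (B (3 * (n + 1))) (fun F => Y n (3 * (n + 1)) ↑F ∧
        Circ ((n + 1 : ℕ) : ℤ) ((3 * (n + 1) : ℕ) : ℤ) (F ∩ O n (3 * (n + 1)))) := by
  set R : ℕ := 3 * (n + 1) with hR
  have hnR : n < R := by omega
  have hok : Ok (fun _ : Edg => (1/2:ℝ)) := fun _ => ⟨by norm_num, by norm_num⟩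
  have hBO : B R = B n ∪ O n R := by
    unfold O
    rw [Finset.union_sdiff_of_subset (B_sub hnR.le)]
  have hd : Disjoint (B n) (O n R) := Finset.disjoint_sdiff
  have hOB : O n R ⊆ B R := Finset.sdiff_subset
  -- the circuit
  have hC : (1/2 : ℝ)^188 ≤ Pr (fun _ => (1/2:ℝ)) (O n R) (Circ ((n + 1 : ℕ) : ℤ) R) := by
    rw [← Pr_local hOB (fun F _ => Circ_loc hnR F)]
    refine le_trans ?_ (pr_Circ (by norm_num) (by norm_num) (R1 := ((n + 1 : ℕ) : ℤ))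
      (R2 := (R : ℤ)) (by positivity) (by omega) (le_refl _))
    have k := rsw_p (p := 1/2) le_rfl (by norm_num) (n := ((n + 1 : ℕ) : ℤ)) (w := 2 * (R : ℤ))
      (h := (R : ℤ) - ((n + 1 : ℕ) : ℤ)) (by positivity) (by omega) (by omega) (by omega)
    calc (1/2 : ℝ)^188 = ((1/2 : ℝ)^47)^4 := by norm_num
      _ ≤ _ := pow_le_pow_left₀ (by positivity) k 4
  unfold PQ Pr
  rw [hBO, Ex_union hd, Ex_union hd, ← Ex_mul_right]
  apply Ex_mono hok
  intro A hA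
  have hA' : ∀ G, G ⊆ O n R → (A ∪ G) ∩ O n R = G := by
    intro G hG
    ext e
    simp only [Finset.mem_inter, Finset.mem_union]
    constructor
    · rintro ⟨h1 | h1, h2⟩
      · exact absurd h2 (Finset.disjoint_left.1 hd (hA h1))
      · exact h1
    · intro h1
      exact ⟨Or.inr h1, hG h1⟩
  have hinc : IncrE (O n R) (fun G => Y n R ↑(A ∪ G)) := by
    intro F G hFG hG hF
    have hs : (↑(A ∪ F) : Set Edg) ⊆ ↑(A ∪ G) := by
      exact_mod_cast Finset.union_subset_union_right hFG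
    obtain ⟨⟨w, hw, h1⟩, ⟨w', hw', h2⟩, h3⟩ := hF
    refine ⟨⟨w, hw, h1.mono ?_⟩, ⟨w', hw', h2.mono ?_⟩, fun hc => h3 (hc.mono ?_)⟩
    · rintro e ⟨⟨h4, h5⟩, h6⟩; exact ⟨⟨hs h4, h5⟩, h6⟩
    · rintro e ⟨⟨h4, h5⟩, h6⟩; exact ⟨⟨hs h4, h5⟩, h6⟩
    · rintro e ⟨⟨h4, h5⟩, h6⟩
      refine ⟨⟨?_, h5⟩, h6⟩
      have h4' : e ∈ A ∪ G := by exact_mod_cast h4
      have h5' : e ∈ B n := by exact_mod_cast h5
      rcases Finset.mem_union.1 h4' with h7 | h7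
      · exact_mod_cast Finset.mem_union_left _ h7
      · exact absurd (hG h7) (Finset.disjoint_left.1 hd h5')
  have hh := Pr_harris hok (S := O n R) hinc
    (B := Circ ((n + 1 : ℕ) : ℤ) R) (fun F G h _ hF => hF.mono h)
  have hP0 : 0 ≤ Pr (fun _ => (1/2:ℝ)) (O n R) (fun G => Y n R ↑(A ∪ G)) := Pr_nonneg hok _ _
  calc Ex (fun _ => (1/2:ℝ)) (O n R) (fun G => ind (Y n R ↑(A ∪ G))) * (1/2 : ℝ)^188
      ≤ Pr (fun _ => (1/2:ℝ)) (O n R) (fun G => Y n R ↑(A ∪ G)) *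
        Pr (fun _ => (1/2:ℝ)) (O n R) (Circ ((n + 1 : ℕ) : ℤ) R) :=
        mul_le_mul_of_nonneg_left hC hP0
    _ ≤ _ := hh
    _ = _ := by
        unfold Pr
        apply Ex_congr
        intro G hG
        apply ind_congr
        change (Y n R ↑(A ∪ G) ∧ Circ ((n + 1 : ℕ) : ℤ) R G) ↔
          (Y n R ↑(A ∪ G) ∧ Circ ((n + 1 : ℕ) : ℤ) R ((A ∪ G) ∩ O n R))
        rw [hA' G hG]

theorem Y_Circ_X {n : ℕ} (hn : 1 ≤ n) {F : Finset Edg}
    (hY : Y n (3 * (n + 1)) ↑F)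
    (hC : Circ ((n + 1 : ℕ) : ℤ) ((3 * (n + 1) : ℕ) : ℤ) (F ∩ O n (3 * (n + 1)))) :
    X n (3 * (n + 1)) ↑F := by
  set R : ℕ := 3 * (n + 1) with hR
  have hsub : F ∩ O n R ⊆ F.erase (e0 true) := by
    intro e he
    rw [Finset.mem_inter] at he
    rw [Finset.mem_erase]
    refine ⟨?_, he.1⟩
    rintro rfl
    have h1 := he.2
    unfold O at h1
    rw [Finset.mem_sdiff] at h1
    exact h1.2 (e0_mem hn)
  obtain ⟨z, hz⟩ := circ_meet (by positivity) (by omega) (hC.mono hsub)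
  have hset : ((↑(F.erase (e0 true)) : Set Edg) ∩ ↑(RE (-(R:ℤ)) R (-(R:ℤ)) R)) =
      ((↑F ∩ ↑(B R)) \ {e0 true}) := by
    ext e
    simp only [Finset.coe_erase, Set.mem_inter_iff, Set.mem_sdiff, Set.mem_singleton_iff,
      Finset.mem_coe]
    tauto
  rw [hset] at hz
  obtain ⟨⟨w, hw, h1⟩, ⟨w', hw', h2⟩, h3⟩ := hY
  refine ⟨?_, h3⟩
  have k1 := hz (0, 0) w (by unfold inR; push_cast; simp; omega) hw.2 h1
  have k2 := hz (1, 0) w' (by unfold inR; push_cast; simp; omega) hw'.2 h2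
  exact k1.trans k2.symm

theorem pr_X {n : ℕ} (hn : 1 ≤ n) :
    PQ (1/2) (B (3 * (n + 1))) (fun F => A4 (-(3 * (n + 1) : ℕ)) (3 * (n + 1) : ℕ)
      (-(3 * (n + 1) : ℕ)) (3 * (n + 1) : ℕ) (e0 true) ↑F) * (1/2 : ℝ)^188 ≤
      PQ (1/2) (B (3 * (n + 1))) (fun F => X n (3 * (n + 1)) ↑F) := by
  have hok : Ok (fun _ : Edg => (1/2:ℝ)) := fun _ => ⟨by norm_num, by norm_num⟩
  refine le_trans (mul_le_mul_of_nonneg_right (Pr_mono hok fun F _ h => ?_) (by positivity))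
    ((pr_YC hn).trans (Pr_mono hok fun F _ h => Y_Circ_X hn h.1 h.2))
  exact A4_Y (by omega) h

end Pool.Agent.H497_Nb
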