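import Pool.Agent.H497_Nb.Meas
import Pool.Agent.H988R6.Four

/-!
# Two neighbours which are joined: conclusion
-/

set_option autoImplicit false

namespace Pool.Agent.H497_Nb

open H974 H12S Finset MeasureTheory
open scoped ENNReal

theorem P4_sharp : ∃ c C : ℝ, 0 < c ∧ 0 < C ∧ ∀ k : ℕ, 1 ≤ k →
    c * (k:ℝ) ^ (-(5/4) : ℝ) ≤ P4 k ∧ P4 k ≤ C * (k:ℝ) ^ (-(5/4) : ℝ) :=
  Pool.Agent.H988R6.a4b_sharp

/-- **joined, but not in the box** -/
theorem E_sharp : ∃ c C : ℝ, 0 < c ∧ 0 < C ∧ ∀ n : ℕ, 1 ≤ n →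
    c * (n:ℝ) ^ (-(5/4) : ℝ) ≤ (bondLaw hlf).real (E n) ∧
      (bondLaw hlf).real (E n) ≤ C * (n:ℝ) ^ (-(5/4) : ℝ) := by
  obtain ⟨c, C, hc, hC, h⟩ := P4_sharp
  refine ⟨(1/2 : ℝ)^189 * (c * (6:ℝ) ^ (-(5/4) : ℝ)), C, by positivity, hC, fun n hn => ⟨?_, ?_⟩⟩
  · refine le_trans ?_ (low hn)
    rw [mul_assoc]
    apply mul_le_mul_of_nonneg_left _ (by positivity)
    refine le_trans ?_ (h (3 * (n + 1)) (by omega)).1
    rw [mul_assoc]
    apply mul_le_mul_of_nonneg_left _ hc.le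
    rw [← Real.mul_rpow (by norm_num) (by positivity)]
    apply Real.rpow_le_rpow_of_nonpos (by positivity)
    · have : (3 * (n + 1) : ℕ) ≤ 6 * n := by omega
      exact_mod_cast this
    · norm_num
  · exact (up hn).trans (h n hn).2

theorem J_pos : 0 < (bondLaw hlf).real J := by
  obtain ⟨c, C, hc, hC, h⟩ := E_sharp
  have h1 := (h 1 le_rfl).1
  have h2 : (bondLaw hlf).real (E 1) ≤ (bondLaw hlf).real J := measureReal_mono Set.sdiff_subset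
  have h3 : (0:ℝ) < c * ((1:ℕ):ℝ) ^ (-(5/4) : ℝ) := by positivity
  linarith

/-- the conditional law -/
noncomputable def cl : Measure (sqLattice.edgeSet → Bool) :=
  ProbabilityTheory.cond (bondLaw hlf) J

theorem cl_real (S : Set (sqLattice.edgeSet → Bool)) :
    cl.real S = ((bondLaw hlf).real J)⁻¹ * (bondLaw hlf).real (J ∩ S) := by
  unfold cl Measure.real
  rw [ProbabilityTheory.cond_apply meas_J, ENNReal.toReal_mul, ENNReal.toReal_inv]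

theorem tail_low : ∃ c : ℝ, 0 < c ∧ ∀ n : ℕ, 1 ≤ n →
    c * (n:ℝ) ^ (-(5/4) : ℝ) ≤ cl.real {ω | n ≤ N ω} := by
  obtain ⟨c, C, hc, hC, h⟩ := E_sharp
  refine ⟨c, hc, fun n hn => ?_⟩
  rw [cl_real]
  have h1 : (bondLaw hlf).real (E n) ≤ (bondLaw hlf).real (J ∩ {ω | n ≤ N ω}) :=
    measureReal_mono (fun ω hω => ⟨hω.1, (N_gt hω).le⟩)
  have h2 : 1 ≤ ((bondLaw hlf).real J)⁻¹ := one_le_inv_iff₀.2 ⟨J_pos, measureReal_le_one⟩
  have h3 := (h n hn).1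
  have h4 : 0 ≤ (bondLaw hlf).real (J ∩ {ω | n ≤ N ω}) := measureReal_nonneg
  nlinarith

theorem tail_up : ∃ C : ℝ, 0 < C ∧ ∀ n : ℕ, 1 ≤ n →
    cl.real {ω | n ≤ N ω} ≤ C * (n:ℝ) ^ (-(5/8) : ℝ) := by
  obtain ⟨c, C, hc, hC, h⟩ := E_sharp
  have hJ := J_pos
  refine ⟨((bondLaw hlf).real J)⁻¹ * ((C + 1) * (36:ℝ) ^ (5/8 : ℝ)), by positivity, fun n hn => ?_⟩
  rw [cl_real, mul_assoc]
  apply mul_le_mul_of_nonneg_left _ (by positivity)
  have hn0 : (0:ℝ) < n := by exact_mod_cast hn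
  rcases lt_or_ge n 9 with h9 | h9
  · have h1 : (bondLaw hlf).real (J ∩ {ω | n ≤ N ω}) ≤ 1 := measureReal_le_one
    have h2 : (1:ℝ) ≤ (36:ℝ) ^ (5/8 : ℝ) * (n:ℝ) ^ (-(5/8) : ℝ) := by
      rw [Real.rpow_neg hn0.le, ← div_eq_mul_inv, le_div_iff₀ (by positivity), one_mul]
      apply Real.rpow_le_rpow hn0.le _ (by norm_num)
      have : (n:ℝ) < 9 := by exact_mod_cast h9
      linarith
    nlinarith
  · set s := Nat.sqrt n with hs
    set k := s / 3 with hk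
    have h1 : 3 ≤ s := by
      rw [hs, Nat.le_sqrt]; omega
    have h2 : 1 ≤ k := by omega
    have h3 : s * s ≤ n := Nat.sqrt_le n
    have h4 : n < (s + 1) * (s + 1) := Nat.lt_succ_sqrt n
    have h5 : (2 * k + 1) ^ 2 ≤ n := by
      have : 2 * k + 1 ≤ s := by omega
      nlinarith
    have h6 : n ≤ 36 * (k * k) := by
      have : s + 1 ≤ 6 * k := by omega
      nlinarith
    have h7 : J ∩ {ω | n ≤ N ω} ⊆ E k := by
      rintro ω ⟨h8, h10⟩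
      refine ⟨h8, fun hc => ?_⟩
      have h11 := N_lt hc
      have h12 : n ≤ N ω := h10
      omega
    refine (measureReal_mono h7).trans ((h k h2).2.trans ?_)
    have hk0 : (0:ℝ) < k := by exact_mod_cast h2
    have h8 : (k:ℝ) ^ (-(5/4) : ℝ) ≤ (36:ℝ) ^ (5/8 : ℝ) * (n:ℝ) ^ (-(5/8) : ℝ) := by
      have e1 : (k:ℝ) ^ (-(5/4) : ℝ) = ((k:ℝ) * k) ^ (-(5/8) : ℝ) := by
        rw [Real.mul_rpow hk0.le hk0.le, ← Real.rpow_add hk0]
        norm_num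
      have e2 : (36:ℝ) ^ (5/8 : ℝ) * (n:ℝ) ^ (-(5/8) : ℝ) = ((n:ℝ) / 36) ^ (-(5/8) : ℝ) := by
        rw [Real.div_rpow hn0.le (by norm_num), Real.rpow_neg (by norm_num : (0:ℝ) ≤ 36)]
        field_simp
      rw [e1, e2]
      apply Real.rpow_le_rpow_of_nonpos (by positivity) _ (by norm_num)
      have : (n:ℝ) ≤ 36 * (k * k) := by exact_mod_cast h6
      linarith
    have h9' : 0 ≤ (36:ℝ) ^ (5/8 : ℝ) * (n:ℝ) ^ (-(5/8) : ℝ) := by positivity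
    nlinarith

theorem diam_sharp : ∃ c C : ℝ, 0 < c ∧ 0 < C ∧ ∀ n : ℕ, 1 ≤ n →
    c * (n:ℝ) ^ (-(5/4) : ℝ) ≤ cl.real (JB n)ᶜ ∧ cl.real (JB n)ᶜ ≤ C * (n:ℝ) ^ (-(5/4) : ℝ) := by
  obtain ⟨c, C, hc, hC, h⟩ := E_sharp
  have hJ := J_pos
  refine ⟨c, ((bondLaw hlf).real J)⁻¹ * C, hc, by positivity, fun n hn => ?_⟩
  rw [cl_real]
  have e : J ∩ (JB n)ᶜ = E n := rfl
  rw [e]
  constructor
  · have h2 : 1 ≤ ((bondLaw hlf).real J)⁻¹ := one_le_inv_iff₀.2 ⟨J_pos, measureReal_le_one⟩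
    have h3 := (h n hn).1
    have h4 : 0 ≤ (bondLaw hlf).real (E n) := measureReal_nonneg
    nlinarith
  · rw [mul_assoc]
    exact mul_le_mul_of_nonneg_left (h n hn).2 (by positivity)

theorem cond_top {q : ℝ} (hq : 5/4 ≤ q) : ∫⁻ ω, (N ω : ℝ≥0∞) ^ q ∂cl = ∞ := by
  obtain ⟨c, C, hc, hC, h⟩ := E_sharp
  unfold cl ProbabilityTheory.cond
  rw [lintegral_smul_measure, moment_top hc (fun n hn => (h n hn).1) hq, smul_eq_mul]
  exact ENNReal.mul_top (ENNReal.inv_ne_zero.2 (measure_ne_top _ _))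

theorem cond_fin {q : ℝ} (h0 : 0 ≤ q) (hq : q < 5/8) : ∫⁻ ω, (N ω : ℝ≥0∞) ^ q ∂cl < ∞ := by
  obtain ⟨c, C, hc, hC, h⟩ := E_sharp
  unfold cl ProbabilityTheory.cond
  rw [lintegral_smul_measure, smul_eq_mul]
  apply ENNReal.mul_lt_top
  · rw [ENNReal.inv_lt_top]
    have := J_pos
    rw [Measure.real, ENNReal.toReal_pos_iff] at this
    exact this.1
  · exact moment_fin hC (fun n hn => (h n hn).2) h0 hq

end Pool.Agent.H497_Nb
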