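import Pool.Agent.H974R2.Infinite
import Pool.Agent.H12R2.Sep.Defs

/-!
# Two neighbours which are joined: paths
-/

set_option autoImplicit false

namespace Pool.Agent.H497_Nb

open H974 H12S Finset MeasureTheory

/-- the chemical distance between the neighbours `(0,0)` and `(1,0)` -/
noncomputable def N (ω : sqLattice.edgeSet → Bool) : ℕ := (openGraph ω).dist (0, 0) (1, 0)

/-- the neighbours are joined -/
def J : Set (sqLattice.edgeSet → Bool) := {ω | (openGraph ω).Reachable (0, 0) (1, 0)}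

/-- the neighbours are joined in the box of radius `n` -/
def JB (n : ℕ) : Set (sqLattice.edgeSet → Bool) :=
  {ω | Reach (opn ω ∩ ↑(RE (-(n:ℤ)) n (-(n:ℤ)) n)) (0, 0) (1, 0)}

/-- joined, but not in the box of radius `n` -/
def E (n : ℕ) : Set (sqLattice.edgeSet → Bool) := J \ JB n

theorem JB_sub_J (n : ℕ) : JB n ⊆ J := by
  intro ω hω
  exact (open_reach ω _ _).2 (Reach.mono Set.inter_subset_left hω)

theorem JB_mono {n m : ℕ} (h : n ≤ m) : JB n ⊆ JB m := by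
  intro ω hω
  refine Reach.mono ?_ hω
  rintro e ⟨h1, h2⟩
  refine ⟨h1, ?_⟩
  have : RE (-(n:ℤ)) n (-(n:ℤ)) n ⊆ RE (-(m:ℤ)) m (-(m:ℤ)) m := by
    rintro ⟨x, y, _ | _⟩ he
    · rw [mem_RE_false] at he ⊢; omega
    · rw [mem_RE_true] at he ⊢; omega
  exact_mod_cast this (by exact_mod_cast h2)

theorem mem_box {e : Edg} {n : ℕ} (h1 : |(src e).1| ≤ n ∧ |(src e).2| ≤ n)
    (h2 : |(tgt e).1| ≤ n ∧ |(tgt e).2| ≤ n) : e ∈ RE (-(n:ℤ)) n (-(n:ℤ)) n := by
  obtain ⟨x, y, _ | _⟩ := e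
  · rw [src_mk, tgt_false] at *
    rw [mem_RE_false]
    simp only [abs_le] at h1 h2
    omega
  · rw [src_mk, tgt_true] at *
    rw [mem_RE_true]
    simp only [abs_le] at h1 h2
    omega

theorem adj_step {F : Set Edg} {u v : Vtx} (h : Adj F u v) :
    (v.1 = u.1 + 1 ∧ v.2 = u.2) ∨ (v.1 = u.1 - 1 ∧ v.2 = u.2) ∨ (v.1 = u.1 ∧ v.2 = u.2 + 1) ∨
      (v.1 = u.1 ∧ v.2 = u.2 - 1) := by
  obtain ⟨⟨x, y, _ | _⟩, -, h1 | h1⟩ := h
  · rw [src_mk, tgt_false] at h1
    obtain ⟨rfl, rfl⟩ := h1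
    simp
  · rw [src_mk, tgt_false] at h1
    obtain ⟨rfl, rfl⟩ := h1
    simp
  · rw [src_mk, tgt_true] at h1
    obtain ⟨rfl, rfl⟩ := h1
    simp
  · rw [src_mk, tgt_true] at h1
    obtain ⟨rfl, rfl⟩ := h1
    simp

theorem adj_box {F : Set Edg} {u v : Vtx} {n : ℕ} (h : Adj F u v)
    (h1 : |u.1| ≤ n ∧ |u.2| ≤ n) (h2 : |v.1| ≤ n ∧ |v.2| ≤ n) :
    Adj (F ∩ ↑(RE (-(n:ℤ)) n (-(n:ℤ)) n)) u v := by
  obtain ⟨e, he, h3 | h3⟩ := h
  · refine ⟨e, ⟨he, ?_⟩, Or.inl h3⟩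
    exact_mod_cast mem_box (by rw [h3.1]; exact h1) (by rw [h3.2]; exact h2)
  · refine ⟨e, ⟨he, ?_⟩, Or.inr h3⟩
    exact_mod_cast mem_box (by rw [h3.1]; exact h2) (by rw [h3.2]; exact h1)

theorem walk_box {ω : sqLattice.edgeSet → Bool} {u v : Vtx} (p : (openGraph ω).Walk u v) (n : ℕ)
    (h1 : |u.1| + p.length ≤ n) (h2 : |u.2| + p.length ≤ n) :
    Reach (opn ω ∩ ↑(RE (-(n:ℤ)) n (-(n:ℤ)) n)) u v := by
  induction p with
  | nil => exact Relation.ReflTransGen.refl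
  | @cons a b c h q ih =>
    rw [SimpleGraph.Walk.length_cons] at h1 h2
    push_cast at h1 h2
    have hadj := (openGraph_adj ω a b).1 h
    have hs := adj_step hadj
    have hb1 : |b.1| ≤ |a.1| + 1 := by
      rcases hs with h3 | h3 | h3 | h3 <;> rw [h3.1]
      · exact (abs_add_le _ _).trans (by simp)
      · exact (abs_sub _ _).trans (by simp)
      · linarith
      · linarith
    have hb2 : |b.2| ≤ |a.2| + 1 := by
      rcases hs with h3 | h3 | h3 | h3 <;> rw [h3.2]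
      · linarith
      · linarith
      · exact (abs_add_le _ _).trans (by simp)
      · exact (abs_sub _ _).trans (by simp)
    have hl : (0:ℤ) ≤ q.length := by positivity
    refine Relation.ReflTransGen.head (adj_box hadj ⟨by linarith, by linarith⟩
      ⟨by linarith, by linarith⟩) (ih (by linarith) (by linarith))

theorem N_gt {ω : sqLattice.edgeSet → Bool} {n : ℕ} (h : ω ∈ E n) : n < N ω := by
  by_contra hcon
  push Not at hcon
  obtain ⟨p, hp⟩ := SimpleGraph.Reachable.exists_walk_length_eq_dist h.1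
  apply h.2
  have : p.length ≤ n := by rw [hp]; exact hcon
  have h3 : ((p.length : ℕ) : ℤ) ≤ n := by exact_mod_cast this
  exact walk_box p n (by simpa using h3) (by simpa using h3)

theorem N_pos {ω : sqLattice.edgeSet → Bool} (h : ω ∈ J) : 1 ≤ N ω := by
  have := h.pos_dist_of_ne (by simp : ((0:ℤ), (0:ℤ)) ≠ (1, 0))
  exact this

/-- the open edges in the box -/
def Gb (n : ℕ) (ω : sqLattice.edgeSet → Bool) : SimpleGraph Vtx :=
  SimpleGraph.fromRel (Adj (opn ω ∩ ↑(RE (-(n:ℤ)) n (-(n:ℤ)) n)))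

theorem Gb_le (n : ℕ) (ω : sqLattice.edgeSet → Bool) : Gb n ω ≤ openGraph ω := by
  intro u v h
  unfold Gb at h
  rw [SimpleGraph.fromRel_adj] at h
  rcases h with ⟨-, ⟨e, he, h⟩ | ⟨e, he, h⟩⟩
  · exact (openGraph_adj ω u v).2 ⟨e, he.1, h⟩
  · exact (openGraph_adj ω u v).2 ⟨e, he.1, h.symm.imp (fun h => h) (fun h => h)⟩

theorem Gb_box {n : ℕ} {ω : sqLattice.edgeSet → Bool} {u v : Vtx} (h : (Gb n ω).Adj u v) :
    v ∈ Finset.Icc (-(n:ℤ)) n ×ˢ Finset.Icc (-(n:ℤ)) n := by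
  unfold Gb at h
  rw [SimpleGraph.fromRel_adj] at h
  rcases h with ⟨-, ⟨⟨x, y, _ | _⟩, he, h | h⟩ | ⟨⟨x, y, _ | _⟩, he, h | h⟩⟩
  all_goals
    have he2 := he.2
    rw [Finset.mem_coe] at he2
    first
      | rw [mem_RE_false] at he2
      | rw [mem_RE_true] at he2
    first
      | rw [src_mk, tgt_false] at h
      | rw [src_mk, tgt_true] at h
    obtain ⟨rfl, rfl⟩ := h
    simp only [Finset.mem_product, Finset.mem_Icc]
    omega

theorem Gb_reach {n : ℕ} {ω : sqLattice.edgeSet → Bool} {u v : Vtx}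
    (h : Reach (opn ω ∩ ↑(RE (-(n:ℤ)) n (-(n:ℤ)) n)) u v) : (Gb n ω).Reachable u v := by
  induction h with
  | refl => exact SimpleGraph.Reachable.refl _
  | @tail b c _ hs ih =>
    refine ih.trans (SimpleGraph.Adj.reachable ?_)
    unfold Gb
    rw [SimpleGraph.fromRel_adj]
    refine ⟨?_, Or.inl hs⟩
    rintro rfl
    exact Adj_irrefl hs

theorem support_box {n : ℕ} {ω : sqLattice.edgeSet → Bool} {u v : Vtx} (p : (Gb n ω).Walk u v)
    (hu : u ∈ Finset.Icc (-(n:ℤ)) n ×ˢ Finset.Icc (-(n:ℤ)) n) :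
    ∀ w ∈ p.support, w ∈ Finset.Icc (-(n:ℤ)) n ×ˢ Finset.Icc (-(n:ℤ)) n := by
  induction p with
  | nil =>
    intro w hw
    rw [SimpleGraph.Walk.support_nil, List.mem_singleton] at hw
    rw [hw]; exact hu
  | cons h q ih =>
    intro w hw
    rw [SimpleGraph.Walk.support_cons, List.mem_cons] at hw
    rcases hw with rfl | hw
    · exact hu
    · exact ih (Gb_box h) w hw

theorem N_lt {ω : sqLattice.edgeSet → Bool} {n : ℕ} (h : ω ∈ JB n) : N ω < (2 * n + 1) ^ 2 := by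
  classical
  obtain ⟨p, hp⟩ := (Gb_reach h).exists_isPath
  have h1 : p.support.toFinset ⊆ Finset.Icc (-(n:ℤ)) n ×ˢ Finset.Icc (-(n:ℤ)) n := by
    intro w hw
    rw [List.mem_toFinset] at hw
    exact support_box p (by simp) w hw
  have h2 := Finset.card_le_card h1
  rw [List.toFinset_card_of_nodup hp.support_nodup, SimpleGraph.Walk.length_support,
    Finset.card_product, Int.card_Icc] at h2
  have h3 : ((n:ℤ) + 1 - -(n:ℤ)).toNat = 2 * n + 1 := by omega
  rw [h3] at h2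
  have h4 : N ω ≤ p.length := by
    have := SimpleGraph.dist_le (p.mapLe (Gb_le n ω))
    rw [SimpleGraph.Walk.length_map] at this
    exact this
  have h5 : (2 * n + 1) ^ 2 = (2 * n + 1) * (2 * n + 1) := by ring
  omega

theorem exit_or {F : Set Edg} {n : ℕ} {u v : Vtx} (hu : inR (-(n:ℤ)) n (-(n:ℤ)) n u)
    (h : Reach F u v) : (inR (-(n:ℤ)) n (-(n:ℤ)) n v ∧
      Reach (F ∩ ↑(RE (-(n:ℤ)) n (-(n:ℤ)) n)) u v) ∨
      ∃ w ∈ bdR (-(n:ℤ)) n (-(n:ℤ)) n, Reach (F ∩ ↑(RE (-(n:ℤ)) n (-(n:ℤ)) n)) u w := by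
  induction h with
  | refl => exact Or.inl ⟨hu, Relation.ReflTransGen.refl⟩
  | @tail b c _ hs ih =>
    rcases ih with ⟨h1, h2⟩ | h1
    · by_cases hb : b ∈ bdR (-(n:ℤ)) n (-(n:ℤ)) n
      · exact Or.inr ⟨b, hb, h2⟩
      · left
        have hb' : ¬ (b.1 = -(n:ℤ) ∨ b.1 = n ∨ b.2 = -(n:ℤ) ∨ b.2 = n) := fun h => hb ⟨h1, h⟩
        unfold inR at h1
        have hst := adj_step hs
        have h3 : inR (-(n:ℤ)) n (-(n:ℤ)) n c := by
          unfold inR
          omega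
        refine ⟨h3, Relation.ReflTransGen.tail h2 (adj_box hs ?_ ?_)⟩
        · simp only [abs_le]; omega
        · unfold inR at h3
          simp only [abs_le]; omega
    · exact Or.inr h1

theorem E_A4 {ω : sqLattice.edgeSet → Bool} {n : ℕ} (hn : 1 ≤ n) (h : ω ∈ E n) :
    A4 (-n) n (-n) n (e0 true) (opn ω) := by
  obtain ⟨h1, h2⟩ := h
  have hr := (open_reach ω _ _).1 h1
  have hno : e0 true ∉ opn ω := by
    intro hc
    apply h2
    refine Relation.ReflTransGen.single ⟨e0 true, ⟨hc, ?_⟩, Or.inl ⟨rfl, ?_⟩⟩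
    · unfold e0
      rw [Finset.mem_coe, mem_RE_true]
      omega
    · unfold e0
      rw [tgt_true]
      norm_num
  have hset : (opn ω ∩ ↑(RE (-(n:ℤ)) n (-(n:ℤ)) n)) \ {e0 true} =
      opn ω ∩ ↑(RE (-(n:ℤ)) n (-(n:ℤ)) n) := by
    ext e
    simp only [Set.mem_sdiff, Set.mem_inter_iff, Set.mem_singleton_iff]
    constructor
    · exact fun h => h.1
    · rintro h
      refine ⟨h, ?_⟩
      rintro rfl
      exact hno h.1
  have hs : src (e0 true) = (0, 0) := rfl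
  have ht : tgt (e0 true) = (1, 0) := by
    unfold e0
    rw [tgt_true]
    norm_num
  unfold A4
  rw [hset, hs, ht]
  refine ⟨?_, ?_, h2⟩
  · rcases exit_or (n := n) (by unfold inR; push_cast; simp) hr with h3 | h3
    · exact absurd h3.2 h2
    · exact h3
  · rcases exit_or (n := n) (by unfold inR; simp only; omega) hr.symm with h3 | h3
    · exact absurd (h3.2.symm) h2
    · exact h3

end Pool.Agent.H497_Nb
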