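import Pool.Agent.H497_Nb.Core
import Pool.Agent.H497_Nb.Path

/-!
# Two neighbours which are joined: the moments of the chemical distance
-/

set_option autoImplicit false

namespace Pool.Agent.H497_Nb

open H974 H12S Finset MeasureTheory
open scoped ENNReal

/-- the four-arm probability -/
noncomputable def P4 (k : ℕ) : ℝ := PQ (1/2) (B k) (fun F => A4 (-k) k (-k) k (e0 true) ↑F)

instance : IsProbabilityMeasure (bondLaw hlf) := by
  unfold bondLaw
  infer_instance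

theorem meas_JB (n : ℕ) : MeasurableSet (JB n) := by
  have : JB n = {ω | (fun F : Finset Edg => Reach ↑F (0, 0) (1, 0)) (FF (B n) ω)} := by
    ext ω
    show Reach (opn ω ∩ ↑(B n)) _ _ ↔ Reach ↑(FF (B n) ω) _ _
    rw [FF_coe]
  rw [this]
  exact meas_event (B n) (fun F : Finset Edg => Reach ↑F (0, 0) (1, 0))

theorem J_eq : J = ⋃ n, JB n := by
  apply Set.Subset.antisymm
  · intro ω hω
    obtain ⟨p⟩ := hω
    exact Set.mem_iUnion.2 ⟨p.length, walk_box p p.length (by simp) (by simp)⟩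
  · exact Set.iUnion_subset JB_sub_J

theorem meas_J : MeasurableSet J := by
  rw [J_eq]
  exact MeasurableSet.iUnion meas_JB

theorem meas_E (n : ℕ) : MeasurableSet (E n) := meas_J.diff (meas_JB n)

theorem law_A4 (k : ℕ) :
    (bondLaw hlf).real {ω | A4 (-k) k (-k) k (e0 true) (opn ω)} = P4 k := by
  have h : {ω : sqLattice.edgeSet → Bool | A4 (-k) k (-k) k (e0 true) (opn ω)} =
      {ω | (fun F : Finset Edg => A4 (-(k:ℤ)) k (-k) k (e0 true) ↑F) (FF (B k) ω)} := by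
    ext ω
    show A4 (-(k:ℤ)) k (-k) k (e0 true) (opn ω) ↔
      A4 (-(k:ℤ)) k (-k) k (e0 true) ↑(FF (B k) ω)
    rw [FF_coe]
    unfold A4 B
    rw [Set.inter_assoc, Set.inter_self]
  rw [h]
  exact law_event hlf (B k) (fun F : Finset Edg => A4 (-(k:ℤ)) k (-k) k (e0 true) ↑F)

theorem up {n : ℕ} (hn : 1 ≤ n) : (bondLaw hlf).real (E n) ≤ P4 n := by
  rw [← law_A4]
  exact measureReal_mono (fun ω hω => E_A4 hn hω)

theorem pr_e0 {S : Finset Edg} (h : e0 true ∈ S) :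
    PQ (1/2) S (fun F => e0 true ∉ F) = 1/2 := by
  unfold PQ
  rw [Pr_local (S' := {e0 true}) (by simpa using h) (fun F _ => by simp)]
  unfold Pr
  have h1 : ({e0 true} : Finset Edg) = insert (e0 true) ∅ := by simp
  rw [h1, Ex_insert _ (by simp), Ex_empty, Ex_empty]
  simp [ind]
  norm_num

theorem low {n : ℕ} (hn : 1 ≤ n) :
    (1/2 : ℝ)^189 * P4 (3 * (n + 1)) ≤ (bondLaw hlf).real (E n) := by
  set R : ℕ := 3 * (n + 1) with hR
  have hnR : n ≤ R := by omega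
  have hmem : e0 true ∈ B R := e0_mem (by omega)
  have h1 : {ω | (fun F : Finset Edg => e0 true ∉ F ∧ X n R ↑F) (FF (B R) ω)} ⊆ E n := by
    rintro ω ⟨h2, h3, h4⟩
    have hno : e0 true ∉ opn ω := by
      intro hc
      exact h2 (mem_FF.2 ⟨hmem, hc⟩)
    rw [FF_coe] at h3 h4
    refine ⟨(open_reach ω _ _).2 (Reach.mono ?_ h3), fun hc => h4 (Reach.mono ?_ hc)⟩
    · rintro e ⟨⟨⟨h5, -⟩, -⟩, -⟩; exact h5
    · rintro e ⟨h5, h6⟩
      refine ⟨⟨⟨h5, by exact_mod_cast B_sub hnR (by exact_mod_cast h6)⟩, h6⟩, ?_⟩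
      rintro rfl
      exact hno h5
  have h2 := measureReal_mono (μ := bondLaw hlf) h1
  rw [law_event hlf (B R) (fun F : Finset Edg => e0 true ∉ F ∧ X n R ↑F)] at h2
  refine le_trans ?_ h2
  have hset : ∀ (F : Finset Edg) (V : Finset Edg), V ⊆ B R →
      ((↑(F ∩ (B R).erase (e0 true)) : Set Edg) ∩ ↑V) \ {e0 true} =
        ((↑F : Set Edg) ∩ ↑V) \ {e0 true} := by
    intro F V hV
    ext e
    simp only [Finset.coe_inter, Finset.coe_erase, Set.mem_sdiff, Set.mem_inter_iff,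
      Set.mem_singleton_iff, Finset.mem_coe]
    constructor
    · rintro ⟨⟨⟨h5, -⟩, h6⟩, h7⟩; exact ⟨⟨h5, h6⟩, h7⟩
    · rintro ⟨⟨h5, h6⟩, h7⟩; exact ⟨⟨⟨h5, hV h6, h7⟩, h6⟩, h7⟩
  have h3 := Pr_indep (p := fun _ : Edg => (1/2:ℝ)) (U := B R) (S := {e0 true})
    (T := (B R).erase (e0 true)) (by simpa using hmem) (Finset.erase_subset _ _)
    (by simp) (A := fun F => e0 true ∉ F) (B := fun F => X n R ↑F)
    (fun F _ => by simp) (fun F _ => by
      unfold X
      rw [hset F (B R) (Finset.Subset.refl _), hset F (B n) (B_sub hnR)])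
  have h4 : Pr (fun _ => ((hlf : unitInterval) : ℝ)) (B R)
      (fun F : Finset Edg => e0 true ∉ F ∧ X n R ↑F) = 1/2 * PQ (1/2) (B R) (fun F => X n R ↑F) := by
    have h5 := pr_e0 hmem
    unfold PQ at h5
    rw [h5] at h3
    exact h3
  rw [h4]
  have h5 := pr_X hn
  rw [← hR] at h5
  unfold P4
  have e : (1/2:ℝ)^189 = 1/2 * (1/2)^188 := by norm_num
  rw [e]
  linarith

theorem moment_top {c : ℝ} (hc : 0 < c)
    (hlow : ∀ n : ℕ, 1 ≤ n → c * (n:ℝ) ^ (-(5/4) : ℝ) ≤ (bondLaw hlf).real (E n)) {q : ℝ}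
    (hq : 5/4 ≤ q) : ∫⁻ ω in J, (N ω : ℝ≥0∞) ^ q ∂(bondLaw hlf) = ∞ := by
  rw [eq_top_iff]
  have hpt : ∀ ω ∈ J, ∑' n : ℕ, (n:ℝ≥0∞) ^ (1/4:ℝ) * (E n).indicator 1 ω ≤
      (N ω : ℝ≥0∞) ^ q := by
    intro ω hω
    have hN := N_pos hω
    have hN0 : (N ω : ℝ≥0∞) ≠ 0 := by
      simp only [ne_eq, Nat.cast_eq_zero]; omega
    rw [tsum_eq_sum (s := Finset.range (N ω))]
    · calc ∑ n ∈ Finset.range (N ω), (n:ℝ≥0∞) ^ (1/4:ℝ) * (E n).indicator 1 ω
          ≤ ∑ n ∈ Finset.range (N ω), (N ω : ℝ≥0∞) ^ (1/4:ℝ) := by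
            apply Finset.sum_le_sum
            intro n hn
            have h1 : (n:ℝ≥0∞) ≤ N ω := by
              exact_mod_cast (Finset.mem_range.1 hn).le
            calc (n:ℝ≥0∞) ^ (1/4:ℝ) * (E n).indicator 1 ω ≤ (n:ℝ≥0∞) ^ (1/4:ℝ) * 1 := by
                  gcongr
                  exact Set.indicator_le_self' (fun _ _ => by simp) ω
              _ = (n:ℝ≥0∞) ^ (1/4:ℝ) := mul_one _
              _ ≤ _ := ENNReal.rpow_le_rpow h1 (by norm_num)
        _ = (N ω : ℝ≥0∞) * (N ω : ℝ≥0∞) ^ (1/4:ℝ) := by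
            rw [Finset.sum_const, Finset.card_range, nsmul_eq_mul]
        _ = (N ω : ℝ≥0∞) ^ (5/4:ℝ) := by
            rw [show (5/4:ℝ) = 1 + 1/4 by norm_num,
              ENNReal.rpow_add _ _ hN0 (ENNReal.natCast_ne_top _), ENNReal.rpow_one]
        _ ≤ _ := ENNReal.rpow_le_rpow_of_exponent_le (by exact_mod_cast hN) hq
    · intro n hn
      have h1 : ω ∉ E n := fun h => hn (Finset.mem_range.2 (N_gt h))
      rw [Set.indicator_of_notMem h1, mul_zero]
  have h2 : ∑' n : ℕ, ENNReal.ofReal (c * (1 / (n:ℝ))) ≤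
      ∫⁻ ω in J, (N ω : ℝ≥0∞) ^ q ∂(bondLaw hlf) := by
    calc ∑' n : ℕ, ENNReal.ofReal (c * (1 / (n:ℝ)))
        ≤ ∑' n : ℕ, (n:ℝ≥0∞) ^ (1/4:ℝ) * bondLaw hlf (E n) := by
          apply ENNReal.tsum_le_tsum
          intro n
          rcases Nat.eq_zero_or_pos n with rfl | hn
          · simp
          · have hn0 : (0:ℝ) < n := by exact_mod_cast hn
            have h3 : c * (1 / (n:ℝ)) = (n:ℝ) ^ (1/4:ℝ) * (c * (n:ℝ) ^ (-(5/4) : ℝ)) := by
              rw [mul_left_comm, ← Real.rpow_add hn0, show (1/4:ℝ) + (-(5/4)) = -1 by norm_num,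
                Real.rpow_neg_one, one_div]
            rw [h3, ENNReal.ofReal_mul (by positivity)]
            apply mul_le_mul'
            · rw [← ENNReal.ofReal_rpow_of_nonneg hn0.le (by norm_num), ENNReal.ofReal_natCast]
            · rw [← ofReal_measureReal]
              exact ENNReal.ofReal_le_ofReal (hlow n hn)
      _ = ∑' n : ℕ, ∫⁻ ω in J, (n:ℝ≥0∞) ^ (1/4:ℝ) * (E n).indicator 1 ω ∂(bondLaw hlf) := by
          congr 1
          ext n
          have hE : E n ∩ J = E n := Set.inter_eq_left.2 Set.sdiff_subset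
          rw [lintegral_const_mul _ (measurable_one.indicator (meas_E n)),
            lintegral_indicator_one (meas_E n), Measure.restrict_apply (meas_E n), hE]
      _ = ∫⁻ ω in J, ∑' n : ℕ, (n:ℝ≥0∞) ^ (1/4:ℝ) * (E n).indicator 1 ω ∂(bondLaw hlf) := by
          rw [lintegral_tsum]
          intro n
          exact ((measurable_one.indicator (meas_E n)).const_mul _).aemeasurable
      _ ≤ _ := setLIntegral_mono' meas_J hpt
  refine le_trans ?_ h2
  rw [top_le_iff]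
  by_contra hcon
  have h3 := ENNReal.summable_toReal hcon
  have h4 : (fun n : ℕ => (ENNReal.ofReal (c * (1 / (n:ℝ)))).toReal) =
      fun n : ℕ => c * (1 / (n:ℝ)) := by
    funext n
    exact ENNReal.toReal_ofReal (by positivity)
  rw [h4, summable_mul_left_iff hc.ne'] at h3
  exact Real.not_summable_one_div_natCast h3

theorem N_cases {ω : sqLattice.edgeSet → Bool} (hω : ω ∈ J) :
    N ω < 9 ∨ ∃ j : ℕ, ω ∈ E (2 ^ j) ∧ N ω ≤ 25 * 4 ^ j := by
  classical
  have hex : ∃ m, ω ∈ JB m := by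
    rw [J_eq, Set.mem_iUnion] at hω
    exact hω
  set M := Nat.find hex with hM
  have h1 : ω ∈ JB M := Nat.find_spec hex
  have h2 := N_lt h1
  rcases le_or_gt M 1 with h3 | h3
  · left
    refine lt_of_lt_of_le h2 ?_
    calc (2 * M + 1) ^ 2 ≤ (2 * 1 + 1) ^ 2 := Nat.pow_le_pow_left (by omega) 2
      _ = 9 := by norm_num
  · right
    refine ⟨Nat.log 2 (M - 1), ⟨hω, fun hc => ?_⟩, ?_⟩
    · have h4 : 2 ^ Nat.log 2 (M - 1) ≤ M - 1 := Nat.pow_log_le_self 2 (by omega)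
      exact Nat.find_min hex (show 2 ^ Nat.log 2 (M - 1) < M by omega) hc
    · have h4 : M - 1 < 2 ^ (Nat.log 2 (M - 1) + 1) := Nat.lt_pow_succ_log_self (by norm_num) _
      rw [pow_succ] at h4
      set x := 2 ^ Nat.log 2 (M - 1) with hx
      have h5 : (4:ℕ) ^ Nat.log 2 (M - 1) = x * x := by
        rw [hx, ← mul_pow]
        norm_num
      have h6 : 1 ≤ x := Nat.one_le_two_pow
      rw [h5]
      have h7 : 2 * M + 1 ≤ 5 * x := by omega
      have h8 : (2 * M + 1) ^ 2 ≤ (5 * x) ^ 2 := Nat.pow_le_pow_left h7 2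
      have h9 : (5 * x) ^ 2 = 25 * (x * x) := by ring
      omega

theorem moment_fin {C : ℝ} (hC : 0 < C)
    (hup : ∀ n : ℕ, 1 ≤ n → (bondLaw hlf).real (E n) ≤ C * (n:ℝ) ^ (-(5/4) : ℝ)) {q : ℝ}
    (h0 : 0 ≤ q) (hq : q < 5/8) : ∫⁻ ω in J, (N ω : ℝ≥0∞) ^ q ∂(bondLaw hlf) < ∞ := by
  have hpt : ∀ ω ∈ J, (N ω : ℝ≥0∞) ^ q ≤ (9:ℝ≥0∞) ^ q +
      ∑' j : ℕ, ((25 * 4 ^ j : ℕ) : ℝ≥0∞) ^ q * (E (2 ^ j)).indicator 1 ω := by
    intro ω hω
    rcases N_cases hω with h | ⟨j, hj, h⟩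
    · refine le_trans (ENNReal.rpow_le_rpow ?_ h0) le_self_add
      exact_mod_cast h.le
    · refine le_trans ?_ le_add_self
      refine le_trans ?_ (ENNReal.le_tsum j)
      rw [Set.indicator_of_mem hj, Pi.one_apply, mul_one]
      exact ENNReal.rpow_le_rpow (by exact_mod_cast h) h0
  have hterm : ∀ j : ℕ, ((25 * 4 ^ j : ℕ) : ℝ≥0∞) ^ q * bondLaw hlf (E (2 ^ j)) ≤
      ENNReal.ofReal ((25:ℝ) ^ q * C * ((2:ℝ) ^ (2 * q - 5/4)) ^ j) := by
    intro j
    have hx : (0:ℝ) < (2:ℝ) ^ j := by positivity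
    have h1 : (25:ℝ) ^ q * C * ((2:ℝ) ^ (2 * q - 5/4)) ^ j =
        (((25 * 4 ^ j : ℕ) : ℝ)) ^ q * (C * (((2 ^ j : ℕ) : ℝ)) ^ (-(5/4) : ℝ)) := by
      have e1 : (((25 * 4 ^ j : ℕ) : ℝ)) = 25 * ((2:ℝ) ^ j * (2:ℝ) ^ j) := by
        push_cast
        rw [← mul_pow]
        norm_num
      have e2 : (((2 ^ j : ℕ) : ℝ)) = (2:ℝ) ^ j := by push_cast; rfl
      have e3 : ((2:ℝ) ^ (2 * q - 5/4)) ^ j = ((2:ℝ) ^ j) ^ (q + q + (-(5/4)) : ℝ) := by
        rw [← Real.rpow_natCast, ← Real.rpow_mul (by norm_num), ← Real.rpow_natCast (2:ℝ) j,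
          ← Real.rpow_mul (by norm_num)]
        congr 1
        ring
      rw [e1, e2, e3, Real.mul_rpow (by norm_num) (by positivity),
        Real.mul_rpow hx.le hx.le, Real.rpow_add hx, Real.rpow_add hx]
      ring
    rw [h1, ENNReal.ofReal_mul (by positivity)]
    apply mul_le_mul'
    · rw [← ENNReal.ofReal_rpow_of_nonneg (by positivity) h0, ENNReal.ofReal_natCast]
    · rw [← ofReal_measureReal]
      exact ENNReal.ofReal_le_ofReal (hup _ Nat.one_le_two_pow)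
  calc ∫⁻ ω in J, (N ω : ℝ≥0∞) ^ q ∂(bondLaw hlf)
      ≤ ∫⁻ ω in J, ((9:ℝ≥0∞) ^ q +
          ∑' j : ℕ, ((25 * 4 ^ j : ℕ) : ℝ≥0∞) ^ q * (E (2 ^ j)).indicator 1 ω) ∂(bondLaw hlf) :=
        setLIntegral_mono' meas_J hpt
    _ = (9:ℝ≥0∞) ^ q * (bondLaw hlf) J +
          ∑' j : ℕ, ((25 * 4 ^ j : ℕ) : ℝ≥0∞) ^ q * bondLaw hlf (E (2 ^ j)) := by
        rw [lintegral_add_left measurable_const, lintegral_tsum]
        · rw [lintegral_const, Measure.restrict_apply_univ]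
          congr 2
          ext j
          have hE : E (2 ^ j) ∩ J = E (2 ^ j) := Set.inter_eq_left.2 Set.sdiff_subset
          rw [lintegral_const_mul _ (measurable_one.indicator (meas_E _)),
            lintegral_indicator_one (meas_E _), Measure.restrict_apply (meas_E _), hE]
        · intro j
          exact ((measurable_one.indicator (meas_E _)).const_mul _).aemeasurable
    _ < ∞ := by
        apply ENNReal.add_lt_top.2
        constructor
        · exact ENNReal.mul_lt_top (ENNReal.rpow_lt_top_of_nonneg h0 (by norm_num))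
            (measure_lt_top _ _)
        · refine lt_of_le_of_lt (ENNReal.tsum_le_tsum hterm) ?_
          have hr : (2:ℝ) ^ (2 * q - 5/4) < 1 :=
            Real.rpow_lt_one_of_one_lt_of_neg (by norm_num) (by linarith)
          have hs : Summable (fun j : ℕ => (25:ℝ) ^ q * C * ((2:ℝ) ^ (2 * q - 5/4)) ^ j) :=
            (summable_geometric_of_lt_one (by positivity) hr).mul_left _
          rw [← ENNReal.ofReal_tsum_of_nonneg (fun j => by positivity) hs]
          exact ENNReal.ofReal_lt_top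

end Pool.Agent.H497_Nb
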